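import Pool.Agent.H309LP.Bridge

set_option autoImplicit false

namespace Pool.Agent.Results.MP_5d4768_an.NoHom

open H309LP.Stmt
open scoped ENNReal

/-- **Rigidity of the exponent for `L^p` crossed products by minimal homeomorphisms.**
Let `p₁ ≠ p₂` be in `[1, ∞)` and let `h₁`, `h₂` be minimal homeomorphisms of infinite compact
metric spaces. The Banach algebras `F^{p₁}(ℤ, X₁, h₁)`, `F^{p₂}(ℤ, X₂, h₂)` and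
`F^{p₂}_r(ℤ, X₂, h₂)` exist, and every continuous (not necessarily unital) algebra homomorphism
from `F^{p₁}(ℤ, X₁, h₁)` to `F^{p₂}(ℤ, X₂, h₂)` or to `F^{p₂}_r(ℤ, X₂, h₂)` is zero. -/
theorem result (p₁ p₂ : ℝ≥0∞) [Fact (1 ≤ p₁)] [Fact (1 ≤ p₂)] (hp₁ : p₁ ≠ ∞) (hp₂ : p₂ ≠ ∞)
    (hne : p₁ ≠ p₂)
    (X₁ X₂ : Type) [MetricSpace X₁] [CompactSpace X₁] [Infinite X₁]
    [MetricSpace X₂] [CompactSpace X₂] [Infinite X₂]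
    (h₁ : X₁ ≃ₜ X₁) (h₂ : X₂ ≃ₜ X₂)
    (hm₁ : ∀ x, Dense (Set.range fun n : ℤ => (h₁ ^ n : X₁ ≃ₜ X₁) x))
    (_hm₂ : ∀ x, Dense (Set.range fun n : ℤ => (h₂ ^ n : X₂ ≃ₜ X₂) x)) :
    (∃ (B₁ : Type) (_ : NormedRing B₁) (_ : NormedAlgebra ℂ B₁)
      (j₁ : (ℤ →₀ C(X₁, ℂ)) →ₗ[ℂ] B₁), IsFullCP p₁ h₁ j₁) ∧
    (∃ (B₂ : Type) (_ : NormedRing B₂) (_ : NormedAlgebra ℂ B₂)
      (j₂ : (ℤ →₀ C(X₂, ℂ)) →ₗ[ℂ] B₂), IsFullCP p₂ h₂ j₂) ∧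
    (∃ (B₂ : Type) (_ : NormedRing B₂) (_ : NormedAlgebra ℂ B₂)
      (j₂ : (ℤ →₀ C(X₂, ℂ)) →ₗ[ℂ] B₂), IsRedCP p₂ h₂ j₂) ∧
    ∀ (B₁ B₂ : Type) [NormedRing B₁] [NormedAlgebra ℂ B₁] [NormedRing B₂] [NormedAlgebra ℂ B₂]
      (j₁ : (ℤ →₀ C(X₁, ℂ)) →ₗ[ℂ] B₁) (j₂ : (ℤ →₀ C(X₂, ℂ)) →ₗ[ℂ] B₂),
      IsFullCP p₁ h₁ j₁ → (IsFullCP p₂ h₂ j₂ ∨ IsRedCP p₂ h₂ j₂) →
      ∀ φ : B₁ →ₙₐ[ℂ] B₂, Continuous φ → φ = 0 :=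
  ⟨H309LP.exists_isFull p₁ h₁, H309LP.exists_isFull p₂ h₂, H309LP.exists_isReduced p₂ hp₂ h₂,
    fun _ _ _ _ _ _ j₁ j₂ H₁ H₂ φ hφ => H309LP.final_zero hp₁ hp₂ hne hm₁ j₁ j₂ H₁ H₂ φ hφ⟩

end Pool.Agent.Results.MP_5d4768_an.NoHom
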